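import Pool.Agent.Y331.SS.Lim
import Pool.Agent.Y812.SS.Wr

/-!
# Recursions contracting a proper cocompact action
-/

set_option autoImplicit false

namespace Pool.Agent.W5h38.CA

open Pool.Agent.Y462.SS Topology Filter Pointwise

/-- `γ` acts trivially on the tree of words. -/
def TrivialOnTree {X Γ : Type} [Group Γ] (ψ : Γ →* Wr X Γ) (γ : Γ) : Prop :=
  ∀ w : List X, act ψ γ w = w

section tree

variable {X Γ : Type} [Group Γ] {ψ : Γ →* Wr X Γ}

theorem TrivialOnTree.perm {γ : Γ} (h : TrivialOnTree ψ γ) (x : X) : (ψ γ).p x = x := by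
  have h1 := h [x]
  simp only [act, List.cons.injEq] at h1
  exact h1.1

theorem TrivialOnTree.sec {γ : Γ} (h : TrivialOnTree ψ γ) (x : X) :
    TrivialOnTree ψ ((ψ γ).s x) := by
  intro w
  have h1 := h (x :: w)
  simp only [act, List.cons.injEq] at h1
  exact h1.2

theorem act_one (w : List X) : act ψ 1 w = w := by
  induction w with
  | nil => rfl
  | cons x w ih =>
    simp only [act, map_one, Wr.one_p, Wr.one_s, Equiv.Perm.coe_one, id_eq, ih]

theorem TrivialOnTree.of_dies {γ : Γ} (h : Dies ψ γ) : TrivialOnTree ψ γ := by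
  induction h with
  | one => exact act_one
  | step γ hp _ ih =>
    intro w
    cases w with
    | nil => rfl
    | cons x w =>
      simp only [act, hp, Equiv.Perm.coe_one, id_eq, ih x w]

end tree

/-- An action by isometries is proper: for every compact set `A` only finitely many `γ` satisfy
`γ A ∩ A ≠ ∅`. -/
def ProperAction (Γ Y : Type) [Group Γ] [TopologicalSpace Y] [MulAction Γ Y] : Prop :=
  ∀ A : Set Y, IsCompact A → {γ : Γ | ((γ • A) ∩ A).Nonempty}.Finite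

/-- An action is cocompact: the translates of some compact set cover the space. -/
def CocompactAction (Γ Y : Type) [Group Γ] [TopologicalSpace Y] [MulAction Γ Y] : Prop :=
  ∃ A : Set Y, IsCompact A ∧ ∀ ξ : Y, ∃ γ : Γ, γ • ξ ∈ A

/-- elements with a small displacement fix a point -/
theorem small_fix {Γ Y : Type} [Group Γ] [MetricSpace Y] [MulAction Γ Y] [IsIsometricSMul Γ Y]
    (hp : ProperAction Γ Y) (hc : CocompactAction Γ Y) :
    ∃ ε > 0, ∀ (γ : Γ) (ξ : Y), dist (γ • ξ) ξ < ε → ∃ η : Y, γ • η = η := by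
  obtain ⟨A, hA, hcov⟩ := hc
  by_contra hcon
  push Not at hcon
  have h1 : ∀ n : ℕ, ∃ (γ : Γ) (ξ : Y), ξ ∈ A ∧ dist (γ • ξ) ξ < 1 / (n + 1 : ℝ) ∧
      ∀ η : Y, γ • η ≠ η := by
    intro n
    obtain ⟨γ, ξ, h2, h3⟩ := hcon (1 / (n + 1 : ℝ)) (by positivity)
    obtain ⟨g, hg⟩ := hcov ξ
    refine ⟨g * γ * g⁻¹, g • ξ, hg, ?_, ?_⟩
    · have e : (g * γ * g⁻¹) • (g • ξ) = g • (γ • ξ) := by
        rw [smul_smul, smul_smul]
        congr 1
        group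
      rw [e, dist_smul]
      exact h2
    · intro η hη
      refine h3 (g⁻¹ • η) ?_
      have e : γ • (g⁻¹ • η) = g⁻¹ • ((g * γ * g⁻¹) • η) := by
        rw [smul_smul, smul_smul]
        congr 1
        group
      rw [e, hη]
  choose γ ξ hξ hd hnf using h1
  obtain ⟨ζ, hζ, φ, hφ, hlim⟩ := hA.tendsto_subseq hξ
  have hlim2 : Tendsto (fun n => γ (φ n) • ξ (φ n)) atTop (𝓝 ζ) := by
    refine (tendsto_iff_of_dist (f₂ := fun n => γ (φ n) • ξ (φ n)) ?_).1 hlim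
    have h0 : Tendsto (fun n : ℕ => 1 / ((φ n : ℝ) + 1)) atTop (𝓝 0) :=
      tendsto_one_div_add_atTop_nhds_zero_nat.comp hφ.tendsto_atTop
    refine squeeze_zero (fun _ => dist_nonneg) (fun n => ?_) h0
    rw [dist_comm]
    exact (hd (φ n)).le
  let B : Set Y := insert ζ (Set.range fun n => γ (φ n) • ξ (φ n))
  have hB : IsCompact (A ∪ B) := hA.union hlim2.isCompact_insert_range
  have hfin := hp _ hB
  have hmem : ∀ n, γ (φ n) ∈ {g : Γ | ((g • (A ∪ B)) ∩ (A ∪ B)).Nonempty} := fun n =>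
    ⟨γ (φ n) • ξ (φ n), Set.smul_mem_smul_set (Or.inl (hξ (φ n))),
      Or.inr (Set.mem_insert_of_mem _ ⟨n, rfl⟩)⟩
  -- some element occurs infinitely often
  obtain ⟨s, hs⟩ := hfin.exists_finset_coe
  have hex : ∃ g ∈ s, ∃ᶠ n in atTop, γ (φ n) = g := by
    by_contra hno
    push Not at hno
    have h3 : ∀ᶠ n in atTop, ∀ g ∈ s, γ (φ n) ≠ g := (Filter.eventually_all_finset s).2 hno
    obtain ⟨n, hn⟩ := h3.exists
    refine hn (γ (φ n)) ?_ rfl
    rw [← Finset.mem_coe, hs]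
    exact hmem n
  obtain ⟨g, _, hg⟩ := hex
  obtain ⟨θ, hθ, hθg⟩ := Filter.extraction_of_frequently_atTop hg
  have h4 : Tendsto (fun n => ξ (φ (θ n))) atTop (𝓝 ζ) := hlim.comp hθ.tendsto_atTop
  have h5 : Tendsto (fun n => g • ξ (φ (θ n))) atTop (𝓝 ζ) := by
    have := hlim2.comp hθ.tendsto_atTop
    refine this.congr fun n => ?_
    simp only [Function.comp_apply]
    rw [hθg n]
  have h6 : Tendsto (fun n => g • ξ (φ (θ n))) atTop (𝓝 (g • ζ)) :=
    ((isometry_smul Y g).continuous.tendsto ζ).comp h4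
  have h7 : g • ζ = ζ := tendsto_nhds_unique h6 h5
  refine hnf (φ (θ 0)) ζ ?_
  rw [hθg 0]
  exact h7

theorem dies_of_trivial {X Γ Y : Type} [Group Γ] [MetricSpace Y] [MulAction Γ Y]
    {ψ : Γ →* Wr X Γ} {c : X → Y → Y} {lam : ℝ} (hl : 0 ≤ lam)
    (hc : ∀ x ξ η, dist (c x ξ) (c x η) ≤ lam * dist ξ η)
    (heq : ∀ γ x ξ, c ((ψ γ).p x) (γ • ξ) = (ψ γ).s x • c x ξ) {ε : ℝ}
    (hε : ∀ (γ : Γ) (ξ : Y), dist (γ • ξ) ξ < ε → TrivialOnTree ψ γ → Dies ψ γ) (n : ℕ) :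
    ∀ (γ : Γ) (ξ : Y), lam ^ n * dist (γ • ξ) ξ < ε → TrivialOnTree ψ γ → Dies ψ γ := by
  induction n with
  | zero =>
    intro γ ξ h ht
    rw [pow_zero, one_mul] at h
    exact hε γ ξ h ht
  | succ n ih =>
    intro γ ξ h ht
    refine Dies.step γ (Equiv.ext ht.perm) fun x => ?_
    refine ih _ (c x ξ) ?_ (ht.sec x)
    have h1 := heq γ x ξ
    rw [ht.perm x] at h1
    rw [← h1]
    refine lt_of_le_of_lt (mul_le_mul_of_nonneg_left (hc x _ _) (pow_nonneg hl n)) ?_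
    rw [pow_succ, mul_assoc] at h
    exact h

/-- **The faithful quotient is in the class.** -/
theorem main (C : ∀ (G : Type) [Group G], Prop) (hC : Closed C)
    {X Γ Y : Type} [Finite X] [Group Γ] (hΓ : C Γ) [MetricSpace Y] [Nonempty Y] [MulAction Γ Y]
    [IsIsometricSMul Γ Y] (hp : ProperAction Γ Y) (hcc : CocompactAction Γ Y)
    {ψ : Γ →* Wr X Γ} {c : X → Y → Y} {lam : ℝ} (hlam : lam < 1)
    (hc : ∀ x ξ η, dist (c x ξ) (c x η) ≤ lam * dist ξ η)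
    (heq : ∀ γ x ξ, c ((ψ γ).p x) (γ • ξ) = (ψ γ).s x • c x ξ)
    (hfix : ∀ (γ : Γ) (ξ : Y), γ • ξ = ξ → TrivialOnTree ψ γ → Dies ψ γ) :
    ∃ (K : Subgroup Γ) (_ : K.Normal), (∀ γ, γ ∈ K ↔ TrivialOnTree ψ γ) ∧ C (Γ ⧸ K) := by
  let K : Subgroup Γ := ⨆ n, Pool.Agent.Y331.SS.Kn ψ n
  have hK : ∀ g, g ∈ K ↔ Dies ψ g := by
    intro g
    rw [Pool.Agent.Y331.SS.dies_iff, Subgroup.mem_iSup_of_directed
      (Pool.Agent.Y331.SS.Kn_mono ψ).directed_le]
  have hKn : K.Normal := by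
    refine ⟨fun n hn g => ?_⟩
    rw [Subgroup.mem_iSup_of_directed (Pool.Agent.Y331.SS.Kn_mono ψ).directed_le] at hn ⊢
    obtain ⟨i, hi⟩ := hn
    exact ⟨i, (Pool.Agent.Y331.SS.Kn_normal ψ i).conj_mem n hi g⟩
  refine ⟨K, hKn, fun γ => ?_,
    Pool.Agent.Y331.SS.t_lim Pool.Agent.Y812.SS.t_wr C hC _ _ inferInstance ψ hΓ K hK⟩
  rw [hK]
  refine ⟨TrivialOnTree.of_dies, fun ht => ?_⟩
  obtain ⟨ε, hε, hεf⟩ := small_fix hp hcc
  obtain ⟨lam', hl, hl0, hl1⟩ : ∃ lam' : ℝ, lam ≤ lam' ∧ 0 ≤ lam' ∧ lam' < 1 :=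
    ⟨max lam 0, le_max_left _ _, le_max_right _ _, max_lt hlam one_pos⟩
  obtain ⟨ξ⟩ := ‹Nonempty Y›
  obtain ⟨n, hn⟩ : ∃ n : ℕ, lam' ^ n * dist (γ • ξ) ξ < ε := by
    have h1 : Tendsto (fun n : ℕ => lam' ^ n * dist (γ • ξ) ξ) atTop (𝓝 (0 * dist (γ • ξ) ξ)) :=
      (tendsto_pow_atTop_nhds_zero_of_lt_one hl0 hl1).mul_const _
    rw [zero_mul] at h1
    exact (h1.eventually (gt_mem_nhds hε)).exists
  refine dies_of_trivial hl0 (fun x ξ η => (hc x ξ η).trans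
    (mul_le_mul_of_nonneg_right hl dist_nonneg)) heq (fun g η hd hg => ?_) n γ ξ hn ht
  obtain ⟨ζ, hζ⟩ := hεf g η hd
  exact hfix g ζ hζ hg

end Pool.Agent.W5h38.CA
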